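import Pool.Agent.CBG.StmtsA

set_option autoImplicit false
set_option maxSynthPendingDepth 3

namespace Pool.Agent.CBG.H77

theorem expand {n : ℕ} (H : Bil (Ed n)) (v z : Ed n) (hs : ∀ x y, H x y = H y x) (s t : ℝ) :
    H (s • v + t • z) (s • v + t • z) = s ^ 2 * H v v + 2 * s * t * H v z + t ^ 2 * H z z := by
  have e : H (s • v + t • z) (s • v + t • z) =
      s * (s * H v v + t * H v z) + t * (s * H z v + t * H z z) := by
    rw [map_add, map_smul, map_smul, hs _ v, hs _ z, map_add, map_add, map_smul, map_smul,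
      map_smul, map_smul]
    simp only [smul_eq_mul]
  rw [e, hs z v]
  ring

theorem disc (A b C : ℝ) (hC : 0 ≤ C) (h : ∀ s t : ℝ, 0 ≤ s ^ 2 * A + 2 * s * t * b + t ^ 2 * C) :
    b ^ 2 ≤ A * C := by
  rcases hC.lt_or_eq with h0 | h0
  · have h1 := h C (-b)
    have h2 : 0 ≤ C * (A * C - b ^ 2) := by
      have e : C ^ 2 * A + 2 * C * (-b) * b + (-b) ^ 2 * C = C * (A * C - b ^ 2) := by ring
      rw [← e]; exact h1
    have h3 := nonneg_of_mul_nonneg_right h2 h0
    linarith
  · subst h0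
    by_cases hb : b = 0
    · rw [hb]; simp
    · have h1 := h 1 (-(A + 1) / (2 * b))
      have e : (1 : ℝ) ^ 2 * A + 2 * 1 * (-(A + 1) / (2 * b)) * b + (-(A + 1) / (2 * b)) ^ 2 * 0 =
          -1 := by
        field_simp
        ring
      rw [e] at h1
      linarith

theorem grm1 (n : ℕ) (H : Bil (Ed n)) (v z : Ed n) (κ : ℝ) (hs : ∀ x y, H x y = H y x)
    (hκ : 0 ≤ κ) (h : ∀ s t : ℝ, κ * (s ^ 2 + t ^ 2) ≤ H (s • v + t • z) (s • v + t • z)) :
    κ ^ 2 ≤ H v v * H z z - H v z ^ 2 := by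
  have h1 : ∀ s t : ℝ, κ * (s ^ 2 + t ^ 2) ≤
      s ^ 2 * H v v + 2 * s * t * H v z + t ^ 2 * H z z := by
    intro s t
    rw [← expand H v z hs]
    exact h s t
  have ha := h1 1 0
  have hc := h1 0 1
  have hA : κ ≤ H v v := by linarith
  have hC : κ ≤ H z z := by linarith
  have h2 := disc (H v v - κ) (H v z) (H z z - κ) (by linarith) (by
    intro s t
    have := h1 s t
    linarith)
  nlinarith [mul_nonneg hκ (sub_nonneg.2 hA), mul_nonneg hκ (sub_nonneg.2 hC)]

theorem grm : GrmStmt := by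
  refine ⟨grm1, ?_, ?_⟩
  · intro n H v z m hs h0 hv hz
    have h1 := grm1 n H v z 0 hs le_rfl (by
      intro s t
      rw [zero_mul]
      exact h0 _)
    have h2 := h0 v
    have h3 := h0 z
    have hm : 0 ≤ m := h2.trans hv
    have h4 : H v v * H z z ≤ m * m := mul_le_mul hv hz h3 hm
    refine abs_le_of_sq_le_sq ?_ hm
    nlinarith
  · intro n H v z hs hp hli
    rw [LinearIndependent.pair_iff] at hli
    have hz : z ≠ 0 := by
      intro hz
      have := (hli 0 1 (by rw [hz]; simp)).2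
      exact one_ne_zero this
    have hc := hp z hz
    have hx : H z z • v + (-(H v z)) • z ≠ 0 := by
      intro h
      exact hc.ne' (hli _ _ h).1
    have h1 := hp _ hx
    rw [expand H v z hs] at h1
    have e : H z z ^ 2 * H v v + 2 * H z z * -(H v z) * H v z + (-(H v z)) ^ 2 * H z z =
        H z z * (H v v * H z z - H v z ^ 2) := by ring
    rw [e] at h1
    exact (mul_pos_iff_of_pos_left hc).1 h1

end Pool.Agent.CBG.H77
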